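import Pool.Agent.Helper95.AF.Defs
import Pool.Agent.Helper18.AF.Fibre
import Pool.Agent.Helper82.QP.Tor

/-! # Project AF, block FX: large exponents almost everywhere on the whole space -/

set_option autoImplicit false
open MeasureTheory Real Set Filter Topology
open scoped ENNReal

namespace Pool.Agent.Helper83.AF

open Pool.Agent.Helper95.AF
open Pool.Agent.Helper18.UC (nn LL sqo rep toT nn_mul nn_one)
open Pool.Agent.Helper46.QP (TT Td)
open Pool.Agent.Helper82.AN (sq)

variable {d : ℕ}

theorem continuous_po2 (a : ℝ) (n : ℕ) : Continuous fun x : (ℕ → ℝ) × (ℝ × ℝ) => po a x.1 n x.2 := by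
  induction n with
  | zero => exact continuous_snd
  | succ n h =>
    have e : (fun x : (ℕ → ℝ) × (ℝ × ℝ) => po a x.1 (n + 1) x.2) = fun x => st a (x.1 n) (po a x.1 n x.2) := rfl
    rw [e]
    unfold st
    exact ((((continuous_const.mul h.fst).sub h.snd).add
      (continuous_const.mul (Real.continuous_sin.comp (continuous_const.mul h.fst)))).add
      ((continuous_apply n).comp continuous_fst)).prodMk h.fst

theorem continuous_pM2 (a : ℝ) (n : ℕ) : Continuous fun x : (ℕ → ℝ) × (ℝ × ℝ) => pM a x.1 n x.2 := by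
  induction n with
  | zero => exact continuous_const
  | succ n h =>
    have h1 := (continuous_po2 a n).fst
    have e : (fun x : (ℕ → ℝ) × (ℝ × ℝ) => pM a x.1 (n + 1) x.2) =
        fun x => Pool.Agent.Helper95.AF.mt a (po a x.1 n x.2).1 * pM a x.1 n x.2 := rfl
    rw [e]
    refine Continuous.matrix_mul ?_ h
    refine continuous_pi fun i => continuous_pi fun j => ?_
    rcases (by omega : i.val = 0 ∨ i.val = 1) with hi | hi <;> rcases (by omega : j.val = 0 ∨ j.val = 1) with hj | hj
    · obtain rfl : i = 0 := Fin.ext hi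
      obtain rfl : j = 0 := Fin.ext hj
      exact continuous_const.add (continuous_const.mul (Real.continuous_cos.comp (continuous_const.mul h1)))
    · obtain rfl : i = 0 := Fin.ext hi
      obtain rfl : j = 1 := Fin.ext hj
      exact continuous_const
    · obtain rfl : i = 1 := Fin.ext hi
      obtain rfl : j = 0 := Fin.ext hj
      exact continuous_const
    · obtain rfl : i = 1 := Fin.ext hi
      obtain rfl : j = 1 := Fin.ext hj
      exact continuous_const

theorem measurable_gA (α : Td d) (a : ℝ) {b : Td d → ℝ} (hb : Continuous b) (n : ℕ) : Measurable (gA α a b n) := by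
  have h := continuous_pM2 a n
  have h1 : ∀ i j, Continuous fun x : (ℕ → ℝ) × (ℝ × ℝ) => pM a x.1 n x.2 i j := fun i j =>
    (continuous_apply j).comp ((continuous_apply i).comp h)
  have h2 : Continuous fun x : (ℕ → ℝ) × (ℝ × ℝ) => nn (pM a x.1 n x.2) := by
    unfold nn
    exact ((((h1 0 0).abs).add (h1 0 1).abs).add (h1 1 0).abs).add (h1 1 1).abs
  have hs : Measurable fun θ => sq α b θ :=
    measurable_pi_lambda _ fun j => (hb.comp (continuous_id.add continuous_const)).measurable
  exact h2.measurable.comp ((hs.comp measurable_fst).prodMk (Pool.Agent.Helper18.UC.measurable_rep.comp measurable_snd))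

theorem det_pM (a : ℝ) (b : ℕ → ℝ) (n : ℕ) (q : ℝ × ℝ) : (pM a b n q).det = 1 := by
  induction n with
  | zero =>
    show (1 : Matrix (Fin 2) (Fin 2) ℝ).det = 1
    exact Matrix.det_one
  | succ n h =>
    show (Pool.Agent.Helper95.AF.mt a (po a b n q).1 * pM a b n q).det = 1
    rw [Matrix.det_mul, h, mul_one]
    unfold Pool.Agent.Helper95.AF.mt
    rw [Matrix.det_fin_two_of]
    ring

theorem one_le_nn_of_det {B : Matrix (Fin 2) (Fin 2) ℝ} (h : B.det = 1) : 1 ≤ nn B := by
  rw [Matrix.det_fin_two] at h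
  unfold nn
  have h00 := abs_nonneg (B 0 0)
  have h01 := abs_nonneg (B 0 1)
  have h10 := abs_nonneg (B 1 0)
  have h11 := abs_nonneg (B 1 1)
  have h1 : 1 ≤ |B 0 0| * |B 1 1| + |B 0 1| * |B 1 0| := by
    rw [← abs_mul, ← abs_mul]
    have h2 := le_abs_self (B 0 0 * B 1 1)
    have h3 := neg_abs_le (B 0 1 * B 1 0)
    linarith
  by_contra hc
  have hc := not_le.1 hc
  have h4 : |B 0 0| * |B 1 1| ≤ |B 0 0| * 1 := mul_le_mul_of_nonneg_left (by linarith) h00
  have h5 : |B 0 1| * |B 1 0| ≤ |B 0 1| * 1 := mul_le_mul_of_nonneg_left (by linarith) h01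
  linarith

theorem nn_mt_le (a x : ℝ) : nn (Pool.Agent.Helper95.AF.mt a x) ≤ LL a := by
  unfold nn Pool.Agent.Helper95.AF.mt LL
  have h1 : |2 * π * a * Real.cos (2 * π * x)| ≤ 2 * π * |a| := by
    rw [abs_mul, abs_mul, abs_of_pos (by positivity : (0:ℝ) < 2 * π)]
    have := Real.abs_cos_le_one (2 * π * x)
    have h2 : 0 ≤ 2 * π * |a| := by positivity
    calc 2 * π * |a| * |Real.cos (2 * π * x)| ≤ 2 * π * |a| * 1 := mul_le_mul_of_nonneg_left this h2
      _ = _ := mul_one _
  have h2 : |2 + 2 * π * a * Real.cos (2 * π * x)| ≤ 2 + 2 * π * |a| := by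
    refine (abs_add_le _ _).trans ?_
    rw [abs_of_pos (by norm_num : (0:ℝ) < 2)]
    linarith
  simp only [Matrix.of_apply, Matrix.cons_val', Matrix.cons_val_zero, Matrix.cons_val_one, Matrix.empty_val',
    Matrix.cons_val_fin_one, abs_neg, abs_one, abs_zero]
  linarith

theorem nn_pM_le (a : ℝ) (b : ℕ → ℝ) (n : ℕ) (q : ℝ × ℝ) : nn (pM a b n q) ≤ 2 * LL a ^ n := by
  have hLL : 0 ≤ LL a := by unfold LL; positivity
  induction n with
  | zero =>
    show nn 1 ≤ _
    rw [nn_one, pow_zero, mul_one]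
  | succ n h =>
    show nn (Pool.Agent.Helper95.AF.mt a (po a b n q).1 * pM a b n q) ≤ _
    calc _ ≤ nn (Pool.Agent.Helper95.AF.mt a (po a b n q).1) * nn (pM a b n q) := nn_mul _ _
      _ ≤ LL a * (2 * LL a ^ n) := mul_le_mul (nn_mt_le a _) h (Pool.Agent.Helper18.UC.nn_nonneg _) hLL
      _ = 2 * LL a ^ (n + 1) := by ring

theorem log_gA_le (α : Td d) (a : ℝ) (b : Td d → ℝ) (n : ℕ) (p : Td d × TT) :
    0 ≤ Real.log (gA α a b n p) ∧ Real.log (gA α a b n p) ≤ Real.log 2 + n * Real.log (LL a) := by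
  have h1 : 1 ≤ gA α a b n p := one_le_nn_of_det (det_pM _ _ _ _)
  have h2 : gA α a b n p ≤ 2 * LL a ^ n := nn_pM_le _ _ _ _
  have hLL : 4 ≤ LL a := by
    unfold LL
    have : 0 ≤ 2 * π * |a| := by positivity
    linarith
  refine ⟨Real.log_nonneg h1, ?_⟩
  refine (Real.log_le_log (by linarith) h2).trans ?_
  rw [Real.log_mul (by norm_num) (by positivity), Real.log_pow]

theorem tst_mp (a β : ℝ) : MeasurePreserving (tst a β) volume volume := by
  have hc : Measurable fun x : UnitAddCircle => x + x + ((a * (fourier 1 x : ℂ).im + β : ℝ) : UnitAddCircle) := by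
    have h1 : Continuous fun x : UnitAddCircle => (a * (fourier 1 x : ℂ).im + β : ℝ) :=
      (continuous_const.mul (Complex.continuous_im.comp (fourier 1).continuous)).add continuous_const
    exact ((continuous_id.add continuous_id).add ((AddCircle.continuous_mk' (1 : ℝ)).comp h1)).measurable
  have hg : Measurable (Function.uncurry fun x y : UnitAddCircle =>
      x + x + ((a * (fourier 1 x : ℂ).im + β : ℝ) : UnitAddCircle) - y) :=
    (hc.comp measurable_fst).sub measurable_snd
  have h := (MeasurePreserving.id (volume : Measure UnitAddCircle)).skew_product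
    (μc := (volume : Measure UnitAddCircle)) (μd := (volume : Measure UnitAddCircle))
    (g := fun x y : UnitAddCircle => x + x + ((a * (fourier 1 x : ℂ).im + β : ℝ) : UnitAddCircle) - y) hg
    (Filter.Eventually.of_forall fun x => (Measure.measurePreserving_sub_left volume _).map_eq)
  have h2 := (Measure.measurePreserving_swap (μ := (volume : Measure UnitAddCircle))
    (ν := (volume : Measure UnitAddCircle))).comp h
  have e : tst a β = Prod.swap ∘ fun p : UnitAddCircle × UnitAddCircle =>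
      (id p.1, p.1 + p.1 + ((a * (fourier 1 p.1 : ℂ).im + β : ℝ) : UnitAddCircle) - p.2) := by
    funext z
    refine Prod.ext ?_ rfl
    show z.1 + z.1 - z.2 + ((a * (fourier 1 z.1 : ℂ).im + β : ℝ) : UnitAddCircle) =
      z.1 + z.1 + ((a * (fourier 1 z.1 : ℂ).im + β : ℝ) : UnitAddCircle) - z.2
    abel
  rw [e]
  exact h2

/-- **FX** -/
theorem fin_exp {α : Td d} (hind : ∀ k : Fin d → ℤ, k ≠ 0 → ∑ m, k m • α m ≠ 0) {a : ℝ} (ha : 10 ≤ |a|) {b : Td d → ℝ}
    (hb : Continuous b) (h : Lv α a b) {lam : Td d × TT → ℝ} (hm : Measurable lam)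
    (hinv : ∀ᵐ p, lam (Fa α a b p) = lam p)
    (hl : ∀ᵐ p, Tendsto (fun n : ℕ => Real.log (gA α a b n p) / n) atTop (𝓝 (lam p))) :
    ∀ᵐ p, 15 / 16 * Real.log |a| ≤ lam p := by
  have hk : ∀ k : ℕ, ∃ N ≥ k + 1, ∃ r : Td d → ℝ, Measurable r ∧ (∀ θ, 0 ≤ r θ) ∧ (∃ K, ∀ θ, r θ ≤ K) ∧
      (∀ θ, volume {z : TT | Real.log (gA α a b N (θ, z)) < r θ} ≤ ENNReal.ofReal (1 / ((k : ℝ) + 2))) ∧
      15 / 16 * N * Real.log |a| ≤ ∫ θ, r θ := fun k => h (1 / ((k : ℝ) + 2)) (by positivity) (k + 1)
  choose N hN r hrm hr0 hrK hrv hri using hk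
  have hN0 : ∀ k, (0 : ℝ) < N k := fun k => by
    have : 0 < N k := by have := hN k; omega
    exact_mod_cast this
  have hN1 : ∀ k, (1 : ℝ) ≤ N k := fun k => by
    have : 1 ≤ N k := by have := hN k; omega
    exact_mod_cast this
  have hlog2 : 0 ≤ Real.log 2 := Real.log_nonneg (by norm_num)
  have hLL : 4 ≤ LL a := by
    unfold LL
    have : 0 ≤ 2 * π * |a| := by positivity
    linarith
  have hlogLL : 0 ≤ Real.log (LL a) := Real.log_nonneg (by linarith)
  set C : ℝ := Real.log 2 + Real.log (LL a) with hC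
  have hG0 : ∀ k p, 0 ≤ Real.log (gA α a b (N k) p) / N k := fun k p => div_nonneg (log_gA_le α a b (N k) p).1 (hN0 k).le
  have hGC : ∀ k p, Real.log (gA α a b (N k) p) / N k ≤ C := by
    intro k p
    rw [div_le_iff₀ (hN0 k)]
    refine (log_gA_le α a b (N k) p).2.trans ?_
    have h1 : Real.log 2 * 1 ≤ Real.log 2 * N k := mul_le_mul_of_nonneg_left (hN1 k) hlog2
    rw [hC]
    linarith
  have hbad : ∀ k θ, volume {z : TT | Real.log (gA α a b (N k) (θ, z)) / N k < r k θ / N k} ≤
      ENNReal.ofReal (1 / ((k : ℝ) + 2)) := by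
    intro k θ
    refine le_trans (measure_mono fun z hz => ?_) (hrv k θ)
    exact (div_lt_div_iff_of_pos_right (hN0 k)).1 hz
  refine Pool.Agent.Helper18.AF.main (ν := (volume : Measure (Td d))) (μ := (volume : Measure TT))
    (Pool.Agent.Helper82.QP.rot_erg hind) (S := fun θ => tst a (b θ)) (fun θ => tst_mp a (b θ)) hm hinv
    (G := fun k p => Real.log (gA α a b (N k) p) / N k) (fun k => (Real.measurable_log.comp (measurable_gA α a hb (N k))).div_const _)
    (C := C) (fun k p => by rw [abs_of_nonneg (hG0 k p)]; exact hGC k p) hG0 ?_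
    (rr := fun k θ => r k θ / N k) (fun k => (hrm k).div_const _) (fun k θ => div_nonneg (hr0 k θ) (hN0 k).le) (Cr := C) ?_
    (dl := fun k => 1 / ((k : ℝ) + 2)) ?_ (fun k => by positivity) (fun k => Eventually.of_forall (hbad k)) ?_
  · have hNt : Tendsto N atTop atTop := tendsto_atTop_mono (fun k => (Nat.le_succ k).trans (hN k)) tendsto_id
    filter_upwards [hl] with p hp
    exact hp.comp hNt
  · intro k θ
    by_contra hc
    have hc := not_le.1 hc
    have h1 : {z : TT | Real.log (gA α a b (N k) (θ, z)) / N k < r k θ / N k} = univ := by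
      ext z
      simp only [mem_setOf_eq, mem_univ, iff_true]
      exact lt_of_le_of_lt (hGC k (θ, z)) hc
    have h2 := hbad k θ
    rw [h1, measure_univ] at h2
    have h3 : ENNReal.ofReal (1 / ((k : ℝ) + 2)) < 1 := by
      rw [ENNReal.ofReal_lt_one, div_lt_one (by positivity)]
      have : (0 : ℝ) ≤ k := Nat.cast_nonneg k
      linarith
    exact absurd h2 (not_le.2 h3)
  · have h1 : Tendsto (fun k : ℕ => 1 / (((k + 1 : ℕ) : ℝ) + 1)) atTop (𝓝 0) :=
      (tendsto_add_atTop_iff_nat 1).2 (tendsto_one_div_add_atTop_nhds_zero_nat (𝕜 := ℝ))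
    refine h1.congr fun k => ?_
    push_cast
    congr 1
    ring
  · refine Eventually.of_forall fun k => ?_
    show 15 / 16 * Real.log |a| ≤ ∫ θ, r k θ / N k
    rw [integral_div, le_div_iff₀ (hN0 k)]
    refine le_trans (le_of_eq ?_) (hri k)
    ring

end Pool.Agent.Helper83.AF
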