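import Pool.Agent.Helper95.AF.Defs

/-! # Project AF, block LVB: from the levels to the interface -/

set_option autoImplicit false
open MeasureTheory Real Set Filter Topology
open scoped ENNReal

namespace Pool.Agent.Helper83.AF

open Pool.Agent.Helper95.AF
open Pool.Agent.Helper18.UC (nn LL sqo rep toT)
open Pool.Agent.Helper46.QP (TT Td)
open Pool.Agent.Helper82.AN (Ik Ow lawL wt bas eta Hw sq SepR)

variable {d : ℕ}

theorem continuous_po (a : ℝ) (b : ℕ → ℝ) (n : ℕ) : Continuous (po a b n) := by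
  induction n with
  | zero => exact continuous_id
  | succ n h =>
    have e : po a b (n + 1) = fun q => st a (b n) (po a b n q) := rfl
    rw [e]
    unfold st
    exact ((((continuous_const.mul h.fst).sub h.snd).add
      (continuous_const.mul (Real.continuous_sin.comp (continuous_const.mul h.fst)))).add continuous_const).prodMk h.fst

theorem continuous_pM (a : ℝ) (b : ℕ → ℝ) (n : ℕ) : Continuous (pM a b n) := by
  induction n with
  | zero => exact continuous_const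
  | succ n h =>
    have h1 := (continuous_po a b n).fst
    have e : pM a b (n + 1) = fun q => Pool.Agent.Helper95.AF.mt a (po a b n q).1 * pM a b n q := rfl
    rw [e]
    refine Continuous.matrix_mul ?_ h
    refine continuous_pi fun i => continuous_pi fun j => ?_
    rcases (by omega : i.val = 0 ∨ i.val = 1) with hi | hi <;> rcases (by omega : j.val = 0 ∨ j.val = 1) with hj | hj
    · obtain rfl : i = 0 := Fin.ext hi
      obtain rfl : j = 0 := Fin.ext hj
      exact continuous_const.add (continuous_const.mul (Real.continuous_cos.comp (continuous_const.mul h1)))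
    · obtain rfl : i = 0 := Fin.ext hi
      obtain rfl : j = 1 := Fin.ext hj
      exact continuous_const
    · obtain rfl : i = 1 := Fin.ext hi
      obtain rfl : j = 0 := Fin.ext hj
      exact continuous_const
    · obtain rfl : i = 1 := Fin.ext hi
      obtain rfl : j = 1 := Fin.ext hj
      exact continuous_const

theorem measurableSet_bad (a : ℝ) (b : ℕ → ℝ) (n : ℕ) (r : ℝ) : MeasurableSet (bad a b n r) := by
  have h := continuous_pM a b n
  have h1 : ∀ i j, Continuous fun z => pM a b n z i j := fun i j => (continuous_apply j).comp ((continuous_apply i).comp h)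
  have h2 : Continuous fun z => nn (pM a b n z) := by
    unfold nn
    exact ((((h1 0 0).abs).add (h1 0 1).abs).add (h1 1 0).abs).add (h1 1 1).abs
  exact measurableSet_lt (Real.measurable_log.comp h2.measurable) measurable_const

/-- density in squares to measure on the torus -/
theorem vol_of_den {a : ℝ} {b : ℕ → ℝ} {n : ℕ} {ρ δ r : ℝ} (hρ : 0 < ρ) (hρ1 : ρ ≤ 1) (hδ : 0 ≤ δ) (h : Den a b n ρ δ r) :
    volume {z : TT | Real.log (nn (pM a b n (rep z))) < r} ≤ ENNReal.ofReal (4 * δ) := by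
  have h1 : {z : TT | Real.log (nn (pM a b n (rep z))) < r} = rep ⁻¹' bad a b n r := rfl
  rw [h1, Pool.Agent.Helper18.UC.vol_rep (measurableSet_bad a b n r)]
  set m : ℕ := ⌈1 / ρ⌉₊ with hm
  have hm1 : 1 / ρ ≤ m := Nat.le_ceil _
  have hm2 : (m : ℝ) < 1 / ρ + 1 := Nat.ceil_lt_add_one (by positivity)
  have hm3 : (m : ℝ) * ρ ≤ 2 := by
    have : (m : ℝ) * ρ ≤ (1 / ρ + 1) * ρ := mul_le_mul_of_nonneg_right hm2.le hρ.le
    have h2 : (1 / ρ + 1) * ρ = 1 + ρ := by field_simp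
    linarith
  have hcell : ∀ x : ℝ, x ∈ Ico (0 : ℝ) 1 → ∃ i ∈ Finset.range m, x ∈ Ico ((i : ℝ) * ρ) ((i : ℝ) * ρ + ρ) := by
    intro x hx
    have hxρ : 0 ≤ x / ρ := div_nonneg hx.1 hρ.le
    refine ⟨⌊x / ρ⌋₊, ?_, ?_, ?_⟩
    · rw [Finset.mem_range, Nat.floor_lt hxρ]
      refine lt_of_lt_of_le ?_ hm1
      exact div_lt_div_of_pos_right hx.2 hρ
    · have := Nat.floor_le hxρ
      rwa [le_div_iff₀ hρ] at this
    · have := Nat.lt_floor_add_one (x / ρ)
      rw [div_lt_iff₀ hρ] at this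
      linarith
  have hsub : bad a b n r ∩ Ico (0 : ℝ) 1 ×ˢ Ico (0 : ℝ) 1 ⊆
      ⋃ q ∈ Finset.range m ×ˢ Finset.range m, bad a b n r ∩ sqo ((q.1 : ℝ) * ρ, (q.2 : ℝ) * ρ) ρ := by
    rintro z ⟨hz, hz1, hz2⟩
    obtain ⟨i, hi, hi2⟩ := hcell z.1 hz1
    obtain ⟨j, hj, hj2⟩ := hcell z.2 hz2
    rw [Set.mem_iUnion₂]
    exact ⟨(i, j), Finset.mem_product.2 ⟨hi, hj⟩, hz, hi2, hj2⟩
  calc volume (bad a b n r ∩ Ico (0 : ℝ) 1 ×ˢ Ico (0 : ℝ) 1)
      ≤ volume (⋃ q ∈ Finset.range m ×ˢ Finset.range m, bad a b n r ∩ sqo ((q.1 : ℝ) * ρ, (q.2 : ℝ) * ρ) ρ) := measure_mono hsub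
    _ ≤ ∑ q ∈ Finset.range m ×ˢ Finset.range m, volume (bad a b n r ∩ sqo ((q.1 : ℝ) * ρ, (q.2 : ℝ) * ρ) ρ) :=
        measure_biUnion_finset_le _ _
    _ ≤ ∑ _q ∈ Finset.range m ×ˢ Finset.range m, ENNReal.ofReal (δ * ρ ^ 2) := Finset.sum_le_sum fun q _ => h _
    _ = ENNReal.ofReal ((m * m : ℕ) * (δ * ρ ^ 2)) := by
        rw [Finset.sum_const, Finset.card_product, Finset.card_range, nsmul_eq_mul, ENNReal.ofReal_mul (Nat.cast_nonneg _),
          ENNReal.ofReal_natCast]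
    _ ≤ ENNReal.ofReal (4 * δ) := by
        refine ENNReal.ofReal_le_ofReal ?_
        have h3 : ((m * m : ℕ) : ℝ) * (δ * ρ ^ 2) = (m * ρ) ^ 2 * δ := by push_cast; ring
        rw [h3]
        have h4 : 0 ≤ (m : ℝ) * ρ := by positivity
        have h5 : ((m : ℝ) * ρ) ^ 2 ≤ 2 ^ 2 := pow_le_pow_left₀ h4 hm3 2
        have h6 := mul_le_mul_of_nonneg_right h5 hδ
        linarith

theorem pp_pos (i : ℕ) : 0 < pp i ∧ pp i ≤ 1 := by
  induction i with
  | zero => unfold pp; norm_num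
  | succ i ih =>
    obtain ⟨h1, h2⟩ := ih
    have h3 : 0 < et i := by unfold et; positivity
    have h4 : et i ≤ 1 := by
      unfold et
      rw [div_le_one (by positivity)]
      have : (1 : ℝ) ≤ 2 ^ i := one_le_pow₀ (by norm_num)
      linarith
    have e : pp (i + 1) = pp i * et i / 16 := rfl
    rw [e]
    refine ⟨by positivity, ?_⟩
    have h5 : pp i * et i ≤ 1 * 1 := mul_le_mul h2 h4 h3.le zero_le_one
    linarith

/-- **LVB** -/
theorem lv_of
    (rr_mem_of : ∀ {a : ℝ} {n : ℕ} {ρ δ cap : ℝ} (_ : 0 ≤ cap) (_ : 0 ≤ δ) (b : ℕ → ℝ),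
      0 ≤ rr a n ρ δ cap b ∧ rr a n ρ δ cap b ≤ cap ∧ Den a b n ρ δ (rr a n ρ δ cap b))
    (rr_meas_of : ∀ (a : ℝ) (n : ℕ) {ρ δ cap : ℝ} (_ : 0 ≤ cap) (_ : 0 ≤ δ), Measurable (rr a n ρ δ cap))
    {α : Td d} {a L : ℝ} {b : Td d → ℝ} (hb : Continuous b) (hL : 100 < L) (ha : |Real.log |a| - L| ≤ 1)
    {n : ℕ → ℕ} (hn : ∀ i : ℕ, Real.exp ((i : ℝ) + 1) ≤ pp i * n i)
    (h : ∀ i, (24 / 25) * n i * L ≤ ∫ θ, Rl a L i (n i) (sq α b θ)) : Lv α a b := by
  intro ε hε n₀
  set i : ℕ := max n₀ ⌈4 / ε⌉₊ with hi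
  have hi1 : n₀ ≤ i := le_max_left _ _
  have hi2 : 4 / ε ≤ i := (Nat.le_ceil _).trans (by exact_mod_cast le_max_right _ _)
  obtain ⟨hp0, hp1⟩ := pp_pos i
  have hni := hn i
  have hexp := Real.add_one_le_exp ((i : ℝ) + 1)
  have hn0 : (0 : ℝ) ≤ n i := Nat.cast_nonneg _
  have hpn : (i : ℝ) + 2 ≤ pp i * n i := by linarith
  have hni2 : (i : ℝ) + 2 ≤ n i := by
    have : pp i * n i ≤ 1 * n i := mul_le_mul_of_nonneg_right hp1 hn0
    linarith
  have hni3 : i ≤ n i := by
    have : (i : ℝ) ≤ n i := by linarith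
    exact_mod_cast this
  have hL0 : 0 < L := by linarith
  have hcap : 0 ≤ 2 * (n i : ℝ) * L := by positivity
  have hδ : 0 ≤ Real.exp (-(2 * pp i * n i * L)) := (Real.exp_pos _).le
  have hmeas : Measurable fun θ => sq α b θ :=
    measurable_pi_lambda _ fun j => (hb.comp (continuous_id.add continuous_const)).measurable
  refine ⟨n i, hi1.trans hni3, fun θ => Rl a L i (n i) (sq α b θ), ?_, ?_, ⟨2 * n i * L, ?_⟩, ?_, ?_⟩
  · exact (rr_meas_of a (n i) hcap hδ).comp hmeas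
  · exact fun θ => (rr_mem_of hcap hδ (sq α b θ)).1
  · exact fun θ => (rr_mem_of hcap hδ (sq α b θ)).2.1
  · intro θ
    have h1 := (rr_mem_of (a := a) (n := n i) (ρ := Real.exp (-(pp i * n i * L))) hcap hδ (sq α b θ)).2.2
    have h2 := vol_of_den (Real.exp_pos _) (Real.exp_le_one_iff.2 (by
      have : 0 ≤ pp i * n i * L := by positivity
      linarith)) hδ h1
    refine le_trans h2 (ENNReal.ofReal_le_ofReal ?_)
    have h3 : (i : ℝ) ≤ 2 * pp i * n i * L := by
      have h4 : ((i : ℝ) + 2) * 1 ≤ pp i * n i * (2 * L) := mul_le_mul hpn (by linarith) zero_le_one (by positivity)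
      nlinarith
    have h4 : Real.exp (-(2 * pp i * n i * L)) ≤ Real.exp (-(i : ℝ)) := Real.exp_le_exp.2 (by linarith)
    have h5 : 4 / ε ≤ Real.exp i := hi2.trans (by linarith [Real.add_one_le_exp (i : ℝ)])
    have h6 : Real.exp (-(i : ℝ)) * Real.exp i = 1 := by rw [← Real.exp_add, neg_add_cancel, Real.exp_zero]
    have h7 : 4 ≤ ε * Real.exp i := by
      rw [div_le_iff₀ hε] at h5
      linarith
    have h8 : 0 < Real.exp (-(i : ℝ)) := Real.exp_pos _
    have h9 : 4 * Real.exp (-(i : ℝ)) ≤ ε := by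
      calc 4 * Real.exp (-(i : ℝ)) ≤ (ε * Real.exp i) * Real.exp (-(i : ℝ)) := mul_le_mul_of_nonneg_right h7 h8.le
        _ = ε * (Real.exp (-(i : ℝ)) * Real.exp i) := by ring
        _ = ε := by rw [h6, mul_one]
    linarith
  · refine le_trans ?_ (h i)
    have h1 := (abs_le.1 ha).2
    have h2 : 15 / 16 * Real.log |a| ≤ 24 / 25 * L := by linarith
    calc 15 / 16 * (n i : ℝ) * Real.log |a| = n i * (15 / 16 * Real.log |a|) := by ring
      _ ≤ n i * (24 / 25 * L) := mul_le_mul_of_nonneg_left h2 hn0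
      _ = 24 / 25 * n i * L := by ring

end Pool.Agent.Helper83.AF
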